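import Mathlib

namespace Pool.Agent.Results.MP_737bdd_co.Hyperplane

open Finset Classical Polynomial

variable {n d : ℕ}

/-- General position: distinct points, no `d + 1` on a common hyperplane. -/
def Gen (V : Fin n → Fin d → ℝ) : Prop :=
  Function.Injective V ∧ ∀ s : Finset (Fin n), s.card = d + 1 →
    ¬ ∃ (a : Fin d → ℝ) (b : ℝ), a ≠ 0 ∧ ∀ i ∈ s, a ⬝ᵥ V i = b

/-- The hyperplane `a · x = b` meets the closed simplex spanned by the vertices in `e`. -/
def Meets (V : Fin n → Fin d → ℝ) (a : Fin d → ℝ) (b : ℝ) (e : Finset (Fin n)) : Prop :=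
  ∃ z ∈ convexHull ℝ (V '' (e : Set (Fin n))), a ⬝ᵥ z = b

/-- Minimum over hypergraphs of the maximum number of edges met by a hyperplane. -/
noncomputable def f (d r m n : ℕ) : ℕ :=
  sInf {F | ∃ (V : Fin n → Fin d → ℝ) (E : Finset (Finset (Fin n))), Gen V ∧ (∀ e ∈ E, e.card = r) ∧
    E.card = m ∧ ∀ (a : Fin d → ℝ) (b : ℝ), a ≠ 0 → (E.filter (Meets V a b)).card ≤ F}

lemma lin (a : Fin d → ℝ) : IsLinearMap ℝ fun z : Fin d → ℝ => a ⬝ᵥ z :=
  ⟨fun x y => dotProduct_add _ _ _, fun c x => dotProduct_smul _ _ _⟩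

lemma meets_iff (V : Fin n → Fin d → ℝ) (a : Fin d → ℝ) (b : ℝ) (e : Finset (Fin n)) :
    Meets V a b e ↔ ∃ x ∈ e, ∃ y ∈ e, a ⬝ᵥ V x ≤ b ∧ b ≤ a ⬝ᵥ V y := by
  constructor
  · rintro ⟨z, hz, hb⟩
    have h1 : ∃ x ∈ e, a ⬝ᵥ V x ≤ b := by
      by_contra h
      push Not at h
      have := convexHull_min (t := {w | b < a ⬝ᵥ w}) (by rintro _ ⟨x, hx, rfl⟩; exact h x hx)
        (convex_halfSpace_gt (lin a) b) hz
      exact absurd hb (ne_of_gt this)
    have h2 : ∃ x ∈ e, b ≤ a ⬝ᵥ V x := by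
      by_contra h
      push Not at h
      have := convexHull_min (t := {w | a ⬝ᵥ w < b}) (by rintro _ ⟨x, hx, rfl⟩; exact h x hx)
        (convex_halfSpace_lt (lin a) b) hz
      exact absurd hb (ne_of_lt this)
    obtain ⟨x, hx, h1⟩ := h1
    obtain ⟨y, hy, h2⟩ := h2
    exact ⟨x, hx, y, hy, h1, h2⟩
  · rintro ⟨x, hx, y, hy, h1, h2⟩
    have c := ((convex_convexHull ℝ (V '' (e : Set (Fin n)))).is_linear_image (lin a)).ordConnected
    exact c.out ⟨V x, subset_convexHull ℝ _ ⟨x, hx, rfl⟩, rfl⟩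
      ⟨V y, subset_convexHull ℝ _ ⟨y, hy, rfl⟩, rfl⟩ ⟨h1, h2⟩

def block (τ : Equiv.Perm (Fin n)) (w j : ℕ) : Finset (Fin n) := univ.filter fun i => (τ i).val / w = j

lemma block_le (τ : Equiv.Perm (Fin n)) {w : ℕ} (hw : 0 < w) (j : ℕ) : (block τ w j).card ≤ w := by
  have := card_le_card_of_injOn (s := block τ w j) (t := range w) (fun i => (τ i).val % w)
    (fun i _ => by simpa using Nat.mod_lt _ hw) (by
      intro x hx y hy h
      simp only [block, coe_filter, mem_univ, true_and, Set.mem_setOf_eq] at hx hy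
      apply τ.injective
      apply Fin.ext
      have h' : (τ x).val % w = (τ y).val % w := h
      rw [← Nat.div_add_mod (τ x).val w, ← Nat.div_add_mod (τ y).val w, hx, hy, h'])
  simpa using this

lemma block_eq {w j : ℕ} (hw : 0 < w) (hj : j < n / w) : (block (1 : Equiv.Perm (Fin n)) w j).card = w := by
  refine le_antisymm (block_le _ hw j) ?_
  have h1 : (j + 1) * w ≤ n := (Nat.le_div_iff_mul_le hw).1 hj
  have := card_le_card_of_injOn (s := (univ : Finset (Fin w))) (t := block (1 : Equiv.Perm (Fin n)) w j)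
    (fun k => ⟨k.val + w * j, by have := k.2; nlinarith⟩)
    (fun k _ => by simp [block, Nat.add_mul_div_left _ _ hw, Nat.div_eq_of_lt k.2]) (by
      intro x _ y _ h
      simp only [Fin.mk.injEq] at h
      exact Fin.ext (by omega))
  simpa using this

lemma lower (hd : 0 < d) {r : ℕ} (hr : 0 < r) (V : Fin n → Fin d → ℝ) (E : Finset (Finset (Fin n)))
    (hE : ∀ e ∈ E, e.card = r) {F : ℕ}
    (hF : ∀ (a : Fin d → ℝ) (b : ℝ), a ≠ 0 → (E.filter (Meets V a b)).card ≤ F) :
    (E.Nonempty → 1 ≤ F) ∧ ∀ l, 0 < l → E.card ≤ (n / l + 1) * (l ^ r + F) := by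
  set a : Fin d → ℝ := Pi.single ⟨0, hd⟩ 1 with ha
  have a0 : a ≠ 0 := fun h => by simpa [ha] using congrFun h ⟨0, hd⟩
  constructor
  · rintro ⟨e, he⟩
    obtain ⟨x, hx⟩ : e.Nonempty := card_pos.1 (by rw [hE e he]; exact hr)
    exact le_trans (card_pos.2 ⟨e, mem_filter.2 ⟨he, (meets_iff _ _ _ _).2
      ⟨x, hx, x, hx, le_rfl, le_rfl⟩⟩⟩) (hF a _ a0)
  intro l hl
  set g : Fin n → ℝ := fun i => a ⬝ᵥ V i with hg
  set σ := Tuple.sort g with hσ
  have mono : ∀ x y, σ.symm x ≤ σ.symm y → g x ≤ g y := fun x y h => by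
    have := Tuple.monotone_sort g h
    simp only [← hσ, Function.comp, Equiv.apply_symm_apply] at this
    exact this
  set c : ℕ → ℝ := fun j => if h : (j + 1) * l < n then g (σ ⟨_, h⟩) else 0 with hc
  have sub : E ⊆ (range (n / l + 1)).biUnion fun j =>
      powersetCard r (block σ.symm l j) ∪ E.filter (Meets V a (c j)) := by
    intro e he
    have ne : e.Nonempty := card_pos.1 (by rw [hE e he]; exact hr)
    obtain ⟨x, hx, hm⟩ := exists_min_image e (fun i => (σ.symm i).val / l) ne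
    refine mem_biUnion.2 ⟨(σ.symm x).val / l, ?_, ?_⟩
    · exact mem_range.2 (Nat.lt_succ_of_le (Nat.div_le_div_right (σ.symm x).2.le))
    by_cases h : ∀ y ∈ e, (σ.symm y).val / l = (σ.symm x).val / l
    · exact mem_union_left _ (mem_powersetCard.2 ⟨fun y hy => by simp [block, h y hy], hE e he⟩)
    push Not at h
    obtain ⟨y, hy, hne⟩ := h
    have h1 : (σ.symm x).val / l + 1 ≤ (σ.symm y).val / l := lt_of_le_of_ne (hm y hy) hne.symm
    have h2 : ((σ.symm x).val / l + 1) * l ≤ (σ.symm y).val := (Nat.le_div_iff_mul_le hl).1 h1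
    have h3 : (σ.symm x).val < ((σ.symm x).val / l + 1) * l :=
      (Nat.div_lt_iff_lt_mul hl).1 (Nat.lt_succ_self _)
    have h4 : ((σ.symm x).val / l + 1) * l < n := h2.trans_lt (σ.symm y).2
    refine mem_union_right _ (mem_filter.2 ⟨he, (meets_iff _ _ _ _).2 ⟨x, hx, y, hy, ?_, ?_⟩⟩)
    · simp only [hc, dif_pos h4]
      exact mono x _ (by rw [Equiv.symm_apply_apply]; exact h3.le)
    · simp only [hc, dif_pos h4]
      exact mono _ y (by rw [Equiv.symm_apply_apply]; exact h2)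
  refine (card_le_card sub).trans (card_biUnion_le.trans ?_)
  refine (sum_le_card_nsmul _ _ (l ^ r + F) fun j _ => ?_).trans (by simp)
  refine (card_union_le _ _).trans (add_le_add ?_ (hF _ _ a0))
  rw [card_powersetCard]
  exact (Nat.choose_le_pow _ _).trans (Nat.pow_le_pow_left (block_le _ hl j) _)

/-- Moment curve. -/
def mom (n d : ℕ) (i : Fin n) (j : Fin d) : ℝ := (i.val : ℝ) ^ (j.val + 1)

lemma pol (a : Fin d → ℝ) (b : ℝ) (ha : a ≠ 0) : ∃ p : ℝ[X], p.roots.toFinset.card ≤ d ∧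
    (∀ t, p.eval t = 0 → t ∈ p.roots.toFinset) ∧ ∀ i : Fin n, p.eval (i.val : ℝ) = a ⬝ᵥ mom n d i - b := by
  set p : ℝ[X] := ∑ j : Fin d, C (a j) * X ^ (j.val + 1) - C b with hp
  have p0 : p ≠ 0 := by
    obtain ⟨j, hj⟩ := Function.ne_iff.1 ha
    intro h
    have := congrArg (fun q => coeff q (j.val + 1)) h
    simp only [hp, coeff_sub, finset_sum_coeff, coeff_C_mul, coeff_X_pow, coeff_C_succ, coeff_zero,
      add_left_inj, Fin.val_inj, mul_ite, mul_one, mul_zero, sum_ite_eq, mem_univ, if_true,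
      sub_zero] at this
    exact hj this
  have dg : p.natDegree ≤ d := by
    refine (natDegree_sub_le _ _).trans (max_le ?_ (by simp))
    refine natDegree_sum_le_of_forall_le _ _ fun j _ => ?_
    exact (natDegree_C_mul_X_pow_le _ _).trans j.2
  refine ⟨p, (Multiset.toFinset_card_le _).trans ((card_roots' p).trans dg), fun t ht => ?_, fun i => ?_⟩
  · simp [p0, ht]
  · simp [hp, eval_finset_sum, dotProduct, mom]

lemma mom_gen (hd : 0 < d) : Gen (mom n d) := by
  refine ⟨fun x y h => ?_, ?_⟩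
  · have := congrFun h ⟨0, hd⟩
    simp [mom] at this
    exact Fin.ext this
  · rintro s hs ⟨a, b, ha, h⟩
    obtain ⟨p, h1, h2, h3⟩ := pol (n := n) a b ha
    have := card_le_card_of_injOn (s := s) (t := p.roots.toFinset) (fun i => (i.val : ℝ))
      (fun i hi => h2 _ (by rw [h3, h i hi, sub_self])) (fun x _ y _ k => Fin.ext (Nat.cast_injective (R := ℝ) k))
    omega

lemma upper (hd : 0 < d) {r m w : ℕ} (hr : 0 < r) (hw : 0 < w) (hm : m ≤ n / w * w.choose r) :
    ∃ (V : Fin n → Fin d → ℝ) (E : Finset (Finset (Fin n))), Gen V ∧ (∀ e ∈ E, e.card = r) ∧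
    E.card = m ∧ ∀ (a : Fin d → ℝ) (b : ℝ), a ≠ 0 → (E.filter (Meets V a b)).card ≤ d * w.choose r := by
  set A : Finset (Finset (Fin n)) := (range (n / w)).biUnion fun j => powersetCard r (block 1 w j) with hA
  have cA : A.card = n / w * w.choose r := by
    rw [hA, card_biUnion, sum_congr rfl (g := fun _ => w.choose r) fun j hj => by
      rw [card_powersetCard, block_eq hw (mem_range.1 hj)]]
    · simp
    intro i _ j _ hij
    refine disjoint_left.2 fun e h1 h2 => hij ?_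
    rw [mem_powersetCard] at h1 h2
    obtain ⟨x, hx⟩ : e.Nonempty := card_pos.1 (by rw [h1.2]; exact hr)
    have k1 := h1.1 hx
    have k2 := h2.1 hx
    simp only [block, mem_filter, mem_univ, true_and] at k1 k2
    omega
  obtain ⟨E, hE, cE⟩ := exists_subset_card_eq (s := A) (n := m) (by omega)
  have mem : ∀ e ∈ E, ∃ j, e ∈ powersetCard r (block (1 : Equiv.Perm (Fin n)) w j) := fun e he => by
    obtain ⟨j, -, hj⟩ := mem_biUnion.1 (hE he)
    exact ⟨j, hj⟩
  refine ⟨mom n d, E, mom_gen hd, fun e he => ?_, cE, fun a b ha => ?_⟩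
  · obtain ⟨j, hj⟩ := mem e he
    exact (mem_powersetCard.1 hj).2
  obtain ⟨p, h1, h2, h3⟩ := pol (n := n) a b ha
  have sub : E.filter (Meets (mom n d) a b) ⊆ p.roots.toFinset.biUnion fun t =>
      powersetCard r (block 1 w (⌊t⌋₊ / w)) := by
    intro e he
    obtain ⟨he, hM⟩ := mem_filter.1 he
    obtain ⟨j, hj⟩ := mem e he
    obtain ⟨x, hx, y, hy, k1, k2⟩ := (meets_iff _ _ _ _).1 hM
    obtain ⟨t, ht, t0⟩ := intermediate_value_uIcc (a := (x.val : ℝ)) (b := (y.val : ℝ))
      (f := fun t => p.eval t) p.continuous.continuousOn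
      (show (0 : ℝ) ∈ _ from Set.mem_uIcc.2 (.inl ⟨by rw [h3]; linarith, by rw [h3]; linarith⟩))
    refine mem_biUnion.2 ⟨t, h2 t t0, ?_⟩
    have bx := (mem_powersetCard.1 hj).1 hx
    have bY := (mem_powersetCard.1 hj).1 hy
    simp only [block, mem_filter, mem_univ, true_and, Equiv.Perm.coe_one, id] at bx bY
    have key : ∀ u v : ℕ, (u : ℝ) ≤ t → t ≤ v → u / w = j → v / w = j → ⌊t⌋₊ / w = j := by
      intro u v a1 a2 a3 a4
      have b1 : u ≤ ⌊t⌋₊ := Nat.le_floor a1
      have b2 : ⌊t⌋₊ ≤ v := by simpa using Nat.floor_mono a2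
      have := Nat.div_le_div_right (c := w) b1
      have := Nat.div_le_div_right (c := w) b2
      omega
    have : ⌊t⌋₊ / w = j := by
      rcases Set.mem_uIcc.1 ht with k | k
      · exact key _ _ k.1 k.2 bx bY
      · exact key _ _ k.1 k.2 bY bx
    rwa [this]
  refine (card_le_card sub).trans (card_biUnion_le.trans ?_)
  refine (sum_le_card_nsmul _ _ (w.choose r) fun j _ => ?_).trans (by simpa using Nat.mul_le_mul_right _ h1)
  rw [card_powersetCard]
  exact Nat.choose_le_choose _ (block_le _ hw _)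

/-- Order of magnitude for hyperplanes. -/
theorem result (d s : ℕ) (hd : 1 ≤ d) (hs : 1 ≤ s) : ∃ K : ℕ, ∀ m n : ℕ, 1 ≤ m → m ≤ n.choose (s + 1) →
    (m + n) ^ (s + 1) ≤ K * (n ^ (s + 1) * f d (s + 1) m n ^ s) ∧
      n ^ (s + 1) * f d (s + 1) m n ^ s ≤ K * (m + n) ^ (s + 1) := by
  set r := s + 1 with hr
  refine ⟨16 ^ r + (d * (2 * r) ^ r) ^ s + d ^ s * (8 ^ r * r.factorial), fun m n hm hmn => ?_⟩
  have n0 : 0 < n := by
    rcases n with _ | n
    · simp [hr] at hmn; omega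
    · omega
  have ex : ∃ w, 0 < w ∧ m ≤ n / w * w.choose r := ⟨n, n0, by rwa [Nat.div_self n0, one_mul]⟩
  set w := Nat.find ex with hw
  obtain ⟨w0, wm⟩ : 0 < w ∧ m ≤ n / w * w.choose r := Nat.find_spec ex
  have wn : w ≤ n := Nat.find_min' ex ⟨n0, by rwa [Nat.div_self n0, one_mul]⟩
  have U := upper (n := n) hd (Nat.succ_pos s) w0 wm
  set F := f d r m n with hF
  have FU : F ≤ d * w.choose r := Nat.sInf_le U
  obtain ⟨V, E, gV, hE, cE, hV⟩ : F ∈ _ := Nat.sInf_mem (s := {F | ∃ (V : Fin n → Fin d → ℝ)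
    (E : Finset (Finset (Fin n))), Gen V ∧ (∀ e ∈ E, e.card = r) ∧ E.card = m ∧
      ∀ (a : Fin d → ℝ) (b : ℝ), a ≠ 0 → (E.filter (Meets V a b)).card ≤ F}) ⟨_, U⟩
  obtain ⟨l1, l2⟩ := lower (r := r) hd (Nat.succ_pos s) V E hE hV
  have F1 : 1 ≤ F := l1 (card_pos.1 (by omega))
  constructor
  · refine le_trans ?_ (Nat.mul_le_mul_right _ ((Nat.le_add_right _ _).trans (Nat.le_add_right _ _)))
    have ex2 : ∃ l, F < (l + 1) ^ r ∨ n ≤ l := ⟨n, .inr le_rfl⟩
    set l := Nat.find ex2 with hl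
    have s1 : F < (l + 1) ^ r ∨ n ≤ l := Nat.find_spec ex2
    have ln : l ≤ n := Nat.find_min' ex2 (.inr le_rfl)
    have l0 : 0 < l := by
      by_contra h
      have : l = 0 := by omega
      rw [this] at s1; simp at s1; omega
    have s2 : l ^ r ≤ F := by
      have := Nat.find_min ex2 (m := l - 1) (by omega)
      rw [show l - 1 + 1 = l by omega] at this
      omega
    have s3 : F ≤ (2 * l) ^ r := by
      rcases s1 with h | h
      · exact h.le.trans (Nat.pow_le_pow_left (by omega) _)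
      · have a1 : F ≤ m := Nat.sInf_le ⟨V, E, gV, hE, cE, fun a b _ => cE ▸ card_filter_le _ _⟩
        exact a1.trans (hmn.trans ((Nat.choose_le_pow _ _).trans (Nat.pow_le_pow_left (by omega) _)))
    have s4 := l2 l l0
    rw [cE] at s4
    have s5 : (n / l + 1) * l ≤ 2 * n := by nlinarith [Nat.div_mul_le_self n l]
    have s6 : l ≤ F := (Nat.le_self_pow (by omega) l).trans s2
    have s7 : (m + n) * l ≤ 8 * (n * F) := by
      have a1 : m ≤ (n / l + 1) * (2 * F) := s4.trans (Nat.mul_le_mul_left _ (by omega))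
      have a2 := Nat.mul_le_mul_right l a1
      have a3 := Nat.mul_le_mul_right (2 * F) s5
      have a4 := Nat.mul_le_mul_left n s6
      nlinarith
    have s8 := Nat.pow_le_pow_left s7 r
    have s9 : (m + n) ^ r * F ≤ 16 ^ r * (n ^ r * F ^ s) * F := by
      calc (m + n) ^ r * F ≤ (m + n) ^ r * (2 * l) ^ r := Nat.mul_le_mul_left _ s3
        _ = 2 ^ r * ((m + n) * l) ^ r := by simp only [mul_pow]; ring
        _ ≤ 2 ^ r * (8 * (n * F)) ^ r := Nat.mul_le_mul_left _ s8
        _ = 16 ^ r * (n ^ r * F ^ s) * F := by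
          rw [show 16 = 2 * 8 by rfl]; simp only [mul_pow, hr, pow_succ F]; ring
    exact Nat.le_of_mul_le_mul_right s9 F1
  · have nm : n ^ r ≤ (m + n) ^ r := Nat.pow_le_pow_left (by omega) _
    by_cases hw2 : w ≤ 2 * r
    · have a1 : F ≤ d * (2 * r) ^ r := FU.trans (Nat.mul_le_mul_left _
        ((Nat.choose_le_pow _ _).trans (Nat.pow_le_pow_left hw2 _)))
      have a2 := Nat.mul_le_mul nm (Nat.pow_le_pow_left a1 s)
      refine a2.trans ?_
      rw [mul_comm]
      exact Nat.mul_le_mul_right _ ((Nat.le_add_left _ _).trans (Nat.le_add_right _ _))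
    refine le_trans ?_ (Nat.mul_le_mul_right _ (Nat.le_add_left _ _))
    obtain ⟨v, hv⟩ : ∃ v, w = v + 1 := ⟨w - 1, by omega⟩
    have b0 := Nat.find_min ex (m := v) (by omega)
    have v0 : 0 < v := by omega
    have b1 : n / v * v.choose r < m := by
      by_contra h; exact b0 ⟨v0, not_lt.1 h⟩
    set B := w.choose r with hB
    have b2 : B ≤ 2 * v.choose r := by
      have := Nat.choose_mul_succ_eq v r
      rw [← hv, ← hB] at this
      obtain ⟨u, hu⟩ : ∃ u, w = r + u := ⟨w - r, by omega⟩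
      rw [show w - r = u by omega] at this
      have u0 : 0 < w := w0
      refine Nat.le_of_mul_le_mul_right ?_ u0
      have : w ≤ 2 * u := by omega
      nlinarith [Nat.mul_le_mul_left B this]
    have b3 : n ≤ 2 * (n / v) * w := by
      have q1 : 1 ≤ n / v := (Nat.le_div_iff_mul_le v0).2 (by omega)
      have q2 : n < (n / v + 1) * v := (Nat.div_lt_iff_lt_mul v0).1 (Nat.lt_succ_self _)
      nlinarith
    have b4 : n * B ≤ 4 * (w * (m + n)) := by
      have := Nat.mul_le_mul b3 b2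
      nlinarith [Nat.mul_le_mul_left w b1.le]
    have b5 : w ^ r ≤ 2 ^ r * (r.factorial * B) := by
      have := Nat.pow_sub_le_descFactorial w r
      rw [Nat.descFactorial_eq_factorial_mul_choose] at this
      calc w ^ r ≤ (2 * (w + 1 - r)) ^ r := Nat.pow_le_pow_left (by omega) _
        _ = 2 ^ r * (w + 1 - r) ^ r := mul_pow _ _ _
        _ ≤ _ := Nat.mul_le_mul_left _ this
    have B0 : 0 < B := Nat.choose_pos (by omega)
    have b6 : n ^ r * B ^ s * B ≤ 8 ^ r * r.factorial * (m + n) ^ r * B := by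
      calc n ^ r * B ^ s * B = (n * B) ^ r := by simp only [mul_pow, hr, pow_succ B]; ring
        _ ≤ (4 * (w * (m + n))) ^ r := Nat.pow_le_pow_left b4 _
        _ = 4 ^ r * (m + n) ^ r * w ^ r := by simp only [mul_pow]; ring
        _ ≤ 4 ^ r * (m + n) ^ r * (2 ^ r * (r.factorial * B)) := Nat.mul_le_mul_left _ b5
        _ = _ := by rw [show 8 = 4 * 2 by rfl, mul_pow]; ring
    have b7 := Nat.le_of_mul_le_mul_right b6 B0
    calc n ^ r * F ^ s ≤ n ^ r * (d * B) ^ s := Nat.mul_le_mul_left _ (Nat.pow_le_pow_left FU _)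
      _ = d ^ s * (n ^ r * B ^ s) := by rw [mul_pow]; ring
      _ ≤ d ^ s * (8 ^ r * r.factorial * (m + n) ^ r) := Nat.mul_le_mul_left _ b7
      _ = _ := by ring

end Pool.Agent.Results.MP_737bdd_co.Hyperplane
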