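import Mathlib

namespace Pool.Agent.Results.MP_737bdd_co.LowFlats

open Finset Classical Polynomial

variable {n d : ℕ}

/-- General position: distinct points, no `d + 1` on a common hyperplane. -/
def Gen (V : Fin n → Fin d → ℝ) : Prop :=
  Function.Injective V ∧ ∀ s : Finset (Fin n), s.card = d + 1 →
    ¬ ∃ (a : Fin d → ℝ) (b : ℝ), a ≠ 0 ∧ ∀ i ∈ s, a ⬝ᵥ V i = b

/-- The flat `L` meets the closed simplex spanned by the vertices in `e`. -/
def Meets (V : Fin n → Fin d → ℝ) (L : AffineSubspace ℝ (Fin d → ℝ)) (e : Finset (Fin n)) : Prop :=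
  ∃ z ∈ convexHull ℝ (V '' (e : Set (Fin n))), z ∈ L

/-- Minimum over hypergraphs of the maximum number of edges met by a `k`-flat. -/
noncomputable def f (d r k m n : ℕ) : ℕ :=
  sInf {F | ∃ (V : Fin n → Fin d → ℝ) (E : Finset (Finset (Fin n))), Gen V ∧ (∀ e ∈ E, e.card = r) ∧
    E.card = m ∧ ∀ L : AffineSubspace ℝ (Fin d → ℝ), L ≠ ⊥ → Module.finrank ℝ L.direction = k →
      (E.filter (Meets V L)).card ≤ F}

lemma lin (a : Fin d → ℝ) : IsLinearMap ℝ fun z : Fin d → ℝ => a ⬝ᵥ z :=
  ⟨fun x y => dotProduct_add _ _ _, fun c x => dotProduct_smul _ _ _⟩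

def block (τ : Equiv.Perm (Fin n)) (w j : ℕ) : Finset (Fin n) := univ.filter fun i => (τ i).val / w = j

lemma block_le (τ : Equiv.Perm (Fin n)) {w : ℕ} (hw : 0 < w) (j : ℕ) : (block τ w j).card ≤ w := by
  have := card_le_card_of_injOn (s := block τ w j) (t := range w) (fun i => (τ i).val % w)
    (fun i _ => by simpa using Nat.mod_lt _ hw) (by
      intro x hx y hy h
      simp only [block, coe_filter, mem_univ, true_and, Set.mem_setOf_eq] at hx hy
      apply τ.injective
      apply Fin.ext
      have h' : (τ x).val % w = (τ y).val % w := h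
      rw [← Nat.div_add_mod (τ x).val w, ← Nat.div_add_mod (τ y).val w, hx, hy, h'])
  simpa using this

lemma block_eq {w j : ℕ} (hw : 0 < w) (hj : j < n / w) : (block (1 : Equiv.Perm (Fin n)) w j).card = w := by
  refine le_antisymm (block_le _ hw j) ?_
  have h1 : (j + 1) * w ≤ n := (Nat.le_div_iff_mul_le hw).1 hj
  have := card_le_card_of_injOn (s := (univ : Finset (Fin w))) (t := block (1 : Equiv.Perm (Fin n)) w j)
    (fun k => ⟨k.val + w * j, by have := k.2; nlinarith⟩)
    (fun k _ => by simp [block, Nat.add_mul_div_left _ _ hw, Nat.div_eq_of_lt k.2]) (by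
      intro x _ y _ h
      simp only [Fin.mk.injEq] at h
      exact Fin.ext (by omega))
  simpa using this

/-- Moment curve. -/
def mom (n d : ℕ) (i : Fin n) (j : Fin d) : ℝ := (i.val : ℝ) ^ (j.val + 1)

lemma pol (a : Fin d → ℝ) (b : ℝ) (ha : a ≠ 0) : ∃ p : ℝ[X], p.roots.toFinset.card ≤ d ∧
    (∀ t, p.eval t = 0 → t ∈ p.roots.toFinset) ∧ ∀ i : Fin n, p.eval (i.val : ℝ) = a ⬝ᵥ mom n d i - b := by
  set p : ℝ[X] := ∑ j : Fin d, C (a j) * X ^ (j.val + 1) - C b with hp
  have p0 : p ≠ 0 := by
    obtain ⟨j, hj⟩ := Function.ne_iff.1 ha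
    intro h
    have := congrArg (fun q => coeff q (j.val + 1)) h
    simp only [hp, coeff_sub, finset_sum_coeff, coeff_C_mul, coeff_X_pow, coeff_C_succ, coeff_zero,
      add_left_inj, Fin.val_inj, mul_ite, mul_one, mul_zero, sum_ite_eq, mem_univ, if_true,
      sub_zero] at this
    exact hj this
  have dg : p.natDegree ≤ d := by
    refine (natDegree_sub_le _ _).trans (max_le ?_ (by simp))
    refine natDegree_sum_le_of_forall_le _ _ fun j _ => ?_
    exact (natDegree_C_mul_X_pow_le _ _).trans j.2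
  refine ⟨p, (Multiset.toFinset_card_le _).trans ((card_roots' p).trans dg), fun t ht => ?_, fun i => ?_⟩
  · simp [p0, ht]
  · simp [hp, eval_finset_sum, dotProduct, mom]

lemma mom_gen (hd : 0 < d) : Gen (mom n d) := by
  refine ⟨fun x y h => ?_, ?_⟩
  · have := congrFun h ⟨0, hd⟩
    simp [mom] at this
    exact Fin.ext this
  · rintro s hs ⟨a, b, ha, h⟩
    obtain ⟨p, h1, h2, h3⟩ := pol (n := n) a b ha
    have := card_le_card_of_injOn (s := s) (t := p.roots.toFinset) (fun i => (i.val : ℝ))
      (fun i hi => h2 _ (by rw [h3, h i hi, sub_self])) (fun x _ y _ k => Fin.ext (Nat.cast_injective (R := ℝ) k))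
    omega

lemma indep {r k : ℕ} (hk : (k + 2) * r ≤ d + 1) (L : AffineSubspace ℝ (Fin d → ℝ))
    (hL : Module.finrank ℝ L.direction = k) (D : Finset (Finset (Fin n))) (h1 : ∀ e ∈ D, e.card = r)
    (h2 : ∀ e ∈ D, Meets (mom n d) L e) (h3 : ∀ e ∈ D, ∀ g ∈ D, e ≠ g → Disjoint e g) :
    D.card ≤ k + 1 := by
  by_contra hc
  obtain ⟨T, hT, cT⟩ := exists_subset_card_eq (s := D) (n := k + 2) (by omega)
  set U := T.biUnion id with hU
  have cU : U.card ≤ d + 1 := by
    refine card_biUnion_le.trans ((sum_le_card_nsmul _ _ r fun e he => (h1 e (hT he)).le).trans ?_)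
    rw [cT]; simpa using hk
  choose! z hz1 hz2 using h2
  have fn : ∀ e : Finset (Fin n), ∃ (a : Fin d → ℝ) (c : ℝ), ∀ i ∈ U,
      a ⬝ᵥ mom n d i = (if i ∈ e then 1 else 0) - c := by
    intro e
    have inj : Set.InjOn (fun i : Fin n => (i.val : ℝ)) U :=
      fun x _ y _ h => Fin.ext (Nat.cast_injective (R := ℝ) h)
    set p := Lagrange.interpolate U (fun i : Fin n => (i.val : ℝ)) fun i => if i ∈ e then (1 : ℝ) else 0
      with hp
    have dg : p.natDegree < d + 1 := by
      by_cases p0 : p = 0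
      · simp [p0]
      · rw [natDegree_lt_iff_degree_lt p0]
        exact (Lagrange.degree_interpolate_lt _ inj).trans_le (by exact_mod_cast cU)
    refine ⟨fun j => p.coeff (j.val + 1), p.coeff 0, fun i hi => ?_⟩
    have e1 : p.eval (i.val : ℝ) = if i ∈ e then 1 else 0 := Lagrange.eval_interpolate_at_node _ inj hi
    rw [← e1, eval_eq_sum_range' dg, sum_range_succ', sum_range]
    simp [dotProduct, mom]
  have ai : AffineIndependent ℝ fun e : T => z e := by
    rw [affineIndependent_iff]
    intro s w s0 s1 e he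
    obtain ⟨a, c, ha⟩ := fn e
    have v : ∀ g : T, a ⬝ᵥ z g = (if g = e then 1 else 0) - c := by
      intro g
      refine convexHull_min (t := {x | a ⬝ᵥ x = (if g = e then 1 else 0) - c}) ?_
        (convex_hyperplane (lin a) _) (hz1 g (hT g.2))
      rintro _ ⟨i, hi, rfl⟩
      have := ha i (mem_biUnion.2 ⟨g, g.2, hi⟩)
      by_cases k : g = e
      · subst k
        simpa [mem_coe.1 hi] using this
      · have : i ∉ e.1 := disjoint_left.1 (h3 g (hT g.2) e (hT e.2) fun t => k (Subtype.ext t)) hi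
        simp_all
    have := congrArg (fun x => a ⬝ᵥ x) s1
    simp only [dotProduct_sum, dotProduct_smul, v, smul_eq_mul, mul_sub, sum_sub_distrib, ← sum_mul, s0,
      mul_ite, mul_one, mul_zero, sum_ite_eq', he, if_true, dotProduct_zero] at this
    linarith
  have a1 := ai.card_le_finrank_succ
  have a2 : vectorSpan ℝ (Set.range fun e : T => z e) ≤ L.direction := by
    rw [L.direction_eq_vectorSpan]
    refine vectorSpan_mono ℝ ?_
    rintro _ ⟨e, rfl⟩
    exact hz2 e (hT e.2)
  have a3 := Submodule.finrank_mono a2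
  simp only [Fintype.card_coe, cT] at a1
  omega

lemma upper (hd : 0 < d) {s k m w : ℕ} (hk : (k + 2) * (s + 1) ≤ d + 1) (hw : 0 < w)
    (hm : m ≤ n / w * w.choose (s + 1)) :
    f d (s + 1) k m n ≤ (k + 1) * (s + 1) * (w - 1).choose s := by
  set r := s + 1 with hr'
  have hr : 0 < r := by omega
  set A : Finset (Finset (Fin n)) := (range (n / w)).biUnion fun j => powersetCard r (block 1 w j) with hA
  have cA : A.card = n / w * w.choose r := by
    rw [hA, card_biUnion, sum_congr rfl (g := fun _ => w.choose r) fun j hj => by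
      rw [card_powersetCard, block_eq hw (mem_range.1 hj)]]
    · simp
    intro i _ j _ hij
    refine disjoint_left.2 fun e h1 h2 => hij ?_
    rw [mem_powersetCard] at h1 h2
    obtain ⟨x, hx⟩ : e.Nonempty := card_pos.1 (by rw [h1.2]; exact hr)
    have k1 := h1.1 hx
    have k2 := h2.1 hx
    simp only [block, mem_filter, mem_univ, true_and] at k1 k2
    omega
  obtain ⟨E, hE, cE⟩ := exists_subset_card_eq (s := A) (n := m) (by omega)
  have mem : ∀ e ∈ E, ∃ j, e ∈ powersetCard r (block (1 : Equiv.Perm (Fin n)) w j) := fun e he => by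
    obtain ⟨j, -, hj⟩ := mem_biUnion.1 (hE he)
    exact ⟨j, hj⟩
  have cr : ∀ e ∈ E, e.card = r := fun e he => by
    obtain ⟨j, hj⟩ := mem e he
    exact (mem_powersetCard.1 hj).2
  refine Nat.sInf_le ⟨mom n d, E, mom_gen hd, cr, cE, fun L _ hL => ?_⟩
  have dg : ∀ x : Fin n, (E.filter fun e => x ∈ e).card ≤ (w - 1).choose s := by
    intro x
    have hx : x ∈ block (1 : Equiv.Perm (Fin n)) w (x.val / w) := by simp [block]
    have := card_le_card_of_injOn (s := E.filter fun e => x ∈ e)
      (t := powersetCard s ((block (1 : Equiv.Perm (Fin n)) w (x.val / w)).erase x)) (fun e => e.erase x)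
      (fun e he => by
        obtain ⟨h1, h2⟩ := mem_filter.1 (mem_coe.1 he)
        obtain ⟨j, hj⟩ := mem e h1
        have k := (mem_powersetCard.1 hj).1
        have : x.val / w = j := by simpa [block] using k h2
        refine mem_coe.2 (mem_powersetCard.2 ⟨erase_subset_erase _ (this ▸ k), ?_⟩)
        rw [card_erase_of_mem h2, cr e h1]; omega)
      (fun e he g hg h => by
        rw [← insert_erase (mem_filter.1 (mem_coe.1 he)).2, ← insert_erase (mem_filter.1 (mem_coe.1 hg)).2]
        exact congrArg (insert x) h)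
    rw [card_powersetCard, card_erase_of_mem hx] at this
    exact this.trans (Nat.choose_le_choose _ (Nat.sub_le_sub_right (block_le _ hw _) _))
  set M := E.filter (Meets (mom n d) L) with hM
  obtain ⟨D, hD, hmax⟩ := exists_max_image
    (M.powerset.filter fun D => ∀ e ∈ D, ∀ g ∈ D, e ≠ g → Disjoint e g) card ⟨∅, by simp⟩
  obtain ⟨D1, D2⟩ := mem_filter.1 hD
  have D1' := mem_powerset.1 D1
  have cD := indep hk L hL D (fun e he => cr e (mem_filter.1 (D1' he)).1)
    (fun e he => (mem_filter.1 (D1' he)).2) D2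
  have sub : M ⊆ (D.biUnion id).biUnion fun x => E.filter fun e => x ∈ e := by
    intro e he
    by_contra c
    have dj : ∀ g ∈ D, Disjoint e g := fun g hg => disjoint_left.2 fun x h1 h2 =>
      c (mem_biUnion.2 ⟨x, mem_biUnion.2 ⟨g, hg, h2⟩, mem_filter.2 ⟨(mem_filter.1 he).1, h1⟩⟩)
    have ne : e ∉ D := fun h => by
      have := disjoint_self.1 (dj e h)
      have k := cr e (mem_filter.1 he).1
      rw [this] at k; simp [hr'] at k
    have := hmax (insert e D) (mem_filter.2 ⟨mem_powerset.2 (insert_subset he D1'), by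
      intro a ha b hb hab
      rcases mem_insert.1 ha with rfl | ha' <;> rcases mem_insert.1 hb with rfl | hb'
      · exact absurd rfl hab
      · exact dj _ hb'
      · exact (dj _ ha').symm
      · exact D2 a ha' b hb' hab⟩)
    rw [card_insert_of_notMem ne] at this
    omega
  refine (card_le_card sub).trans (card_biUnion_le.trans ((sum_le_card_nsmul _ _ _ fun x _ => dg x).trans ?_))
  refine Nat.mul_le_mul_right _ (card_biUnion_le.trans ((sum_le_card_nsmul _ _ r fun e he =>
    (cr e (mem_filter.1 (D1' he)).1).le).trans (Nat.mul_le_mul_right _ cD)))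

/-- Linear upper bound for flats of low dimension. -/
theorem result (d r k : ℕ) (hr1 : 1 ≤ r) (hk : (k + 2) * r ≤ d + 1) : ∃ K : ℕ, ∀ m n : ℕ, 1 ≤ m →
    m ≤ n.choose r → n * f d r k m n ≤ K * (m + n) := by
  obtain ⟨s, rfl⟩ : ∃ s, r = s + 1 := ⟨r - 1, by omega⟩
  have hd : 0 < d := by nlinarith
  set r := s + 1 with hr
  refine ⟨(k + 1) * r * ((2 * r) ^ s + 4 * r), fun m n hm hmn => ?_⟩
  have n0 : 0 < n := by
    rcases n with _ | n
    · simp [hr] at hmn; omega
    · omega
  have ex : ∃ w, 0 < w ∧ m ≤ n / w * w.choose r := ⟨n, n0, by rwa [Nat.div_self n0, one_mul]⟩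
  set w := Nat.find ex with hw
  obtain ⟨w0, wm⟩ : 0 < w ∧ m ≤ n / w * w.choose r := Nat.find_spec ex
  have wn : w ≤ n := Nat.find_min' ex ⟨n0, by rwa [Nat.div_self n0, one_mul]⟩
  have U := Nat.mul_le_mul_left n (upper (n := n) hd hk w0 wm)
  refine U.trans ?_
  rw [mul_left_comm, mul_assoc ((k + 1) * r)]
  refine Nat.mul_le_mul_left _ ?_
  by_cases hw2 : w ≤ 2 * r
  · have a1 : (w - 1).choose s ≤ (2 * r) ^ s :=
      (Nat.choose_le_pow _ _).trans (Nat.pow_le_pow_left (by omega) _)
    rw [mul_comm]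
    exact Nat.mul_le_mul (by omega) (by omega)
  · refine le_trans ?_ (Nat.mul_le_mul_right _ (Nat.le_add_left _ _))
    obtain ⟨v, hv⟩ : ∃ v, w = v + 1 := ⟨w - 1, by omega⟩
    have b0 := Nat.find_min ex (m := v) (by omega)
    have v0 : 0 < v := by omega
    have b1 : n / v * v.choose r < m := by
      by_contra h; exact b0 ⟨v0, not_lt.1 h⟩
    set B := w.choose r with hB
    have b2 : B ≤ 2 * v.choose r := by
      have := Nat.choose_mul_succ_eq v r
      rw [← hv, ← hB] at this
      obtain ⟨u, hu⟩ : ∃ u, w = r + u := ⟨w - r, by omega⟩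
      rw [show w - r = u by omega] at this
      have u0 : 0 < w := w0
      refine Nat.le_of_mul_le_mul_right ?_ u0
      have : w ≤ 2 * u := by omega
      nlinarith [Nat.mul_le_mul_left B this]
    have b3 : n ≤ 2 * (n / v) * w := by
      have q1 : 1 ≤ n / v := (Nat.le_div_iff_mul_le v0).2 (by omega)
      have q2 : n < (n / v + 1) * v := (Nat.div_lt_iff_lt_mul v0).1 (Nat.lt_succ_self _)
      nlinarith
    have b4 : n * B ≤ 4 * (w * (m + n)) := by
      have := Nat.mul_le_mul b3 b2
      nlinarith [Nat.mul_le_mul_left w b1.le]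
    have b5 : w * (w - 1).choose s = B * r := by
      have := Nat.add_one_mul_choose_eq v s
      rw [hB, hv]; simpa using this
    refine Nat.le_of_mul_le_mul_left ?_ w0
    calc w * (n * (w - 1).choose s) = n * B * r := by rw [mul_left_comm, b5, mul_assoc]
      _ ≤ 4 * (w * (m + n)) * r := Nat.mul_le_mul_right _ b4
      _ = _ := by ring

end Pool.Agent.Results.MP_737bdd_co.LowFlats
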